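import Pool.Agent.Y250.SS.Stm2
set_option autoImplicit false

/-!
# Taylor polynomials in three variables (job SS-TY of the project SS of helper250)

No symmetry of the iterated derivatives is used: the remainder is estimated for pairs of points.
-/

namespace Pool.Agent.Y941.SS

open MeasureTheory Set Filter Topology

section line

variable {E : Type*} [NormedAddCommGroup E] [NormedSpace ℝ E]

/-- derivatives along a line -/
lemma line_deriv {n : ℕ} {φ : E → ℝ} (hφ : ContDiff ℝ (n + 1 : ℕ) φ) (c a : E) {k : ℕ}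
    (hk : k ≤ n) (t : ℝ) :
    HasDerivAt (fun t : ℝ => iteratedFDeriv ℝ k φ (c + t • a) (fun _ => a))
      (iteratedFDeriv ℝ (k + 1) φ (c + t • a) (fun _ => a)) t := by
  have h1 : HasFDerivAt (iteratedFDeriv ℝ k φ) (fderiv ℝ (iteratedFDeriv ℝ k φ) (c + t • a))
      (c + t • a) := by
    have hd : Differentiable ℝ (iteratedFDeriv ℝ k φ) :=
      hφ.differentiable_iteratedFDeriv (by exact_mod_cast Nat.lt_succ_of_le hk)
    exact (hd _).hasFDerivAt
  have h2 : HasDerivAt (fun t : ℝ => c + t • a) a t := by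
    simpa using (hasDerivAt_id t).smul_const a |>.const_add c
  have h3 := h1.comp_hasDerivAt t h2
  have h4 := ((ContinuousMultilinearMap.apply ℝ (fun _ : Fin k => E) ℝ
    (fun _ => a)).hasFDerivAt (x := iteratedFDeriv ℝ k φ (c + t • a))).comp_hasDerivAt t h3
  rw [iteratedFDeriv_succ_apply_left]
  exact h4

/-- integration of a bound -/
lemma int_bound {f f' : ℝ → ℝ} {C : ℝ} {p : ℕ} (hf : ∀ t, HasDerivAt f (f' t) t) (h0 : f 0 = 0)
    (hb : ∀ t ∈ Icc (0 : ℝ) 1, |f' t| ≤ C * (t ^ p / p.factorial)) :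
    ∀ t ∈ Icc (0 : ℝ) 1, |f t| ≤ C * (t ^ (p + 1) / (p + 1).factorial) := by
  intro t ht
  have hB : ∀ x : ℝ, HasDerivAt (fun x : ℝ => C * (x ^ (p + 1) / (p + 1).factorial))
      (C * (x ^ p / p.factorial)) x := by
    intro x
    have h1 := ((hasDerivAt_pow (p + 1) x).div_const ((p + 1).factorial : ℝ)).const_mul C
    refine h1.congr_deriv ?_
    rw [Nat.factorial_succ]
    have h2 : ((p + 1 : ℕ) : ℝ) ≠ 0 := by positivity
    have h3 : (p.factorial : ℝ) ≠ 0 := by positivity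
    push_cast at h2 ⊢
    field_simp
  have := image_norm_le_of_norm_deriv_right_le_deriv_boundary (f := f) (f' := f') (a := 0) (b := 1)
    (fun x _ => (hf x).continuousAt.continuousWithinAt)
    (fun x _ => (hf x).hasDerivWithinAt) (B := fun x : ℝ => C * (x ^ (p + 1) / (p + 1).factorial))
    (B' := fun x => C * (x ^ p / p.factorial)) (by simp [h0]) hB
    (fun x hx => hb x ⟨hx.1, hx.2.le⟩) ht
  exact this

/-- the remainder of order `k` -/
noncomputable def Hk (G : ℕ → ℝ → ℝ) (n k : ℕ) (t : ℝ) : ℝ :=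
  G k t - ∑ j ∈ Finset.range (n + 1 - k), t ^ j / j.factorial * G (k + j) 0

lemma Hk_deriv {G : ℕ → ℝ → ℝ} {n : ℕ} (hG : ∀ k ≤ n, ∀ t, HasDerivAt (G k) (G (k + 1) t) t)
    {k : ℕ} (hk : k < n) (t : ℝ) : HasDerivAt (Hk G n k) (Hk G n (k + 1) t) t := by
  unfold Hk
  refine (hG k hk.le t).sub ?_
  obtain ⟨m, hm⟩ : ∃ m, n + 1 - k = m + 1 := ⟨n - k, by omega⟩
  have hm' : n + 1 - (k + 1) = m := by omega
  rw [hm, hm']
  have h1 : ∀ j ∈ Finset.range (m + 1), HasDerivAt
      (fun t : ℝ => t ^ j / (j.factorial : ℝ) * G (k + j) 0)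
      (j * t ^ (j - 1) / (j.factorial : ℝ) * G (k + j) 0) t := fun j _ =>
    ((hasDerivAt_pow j t).div_const _).mul_const _
  refine (HasDerivAt.fun_sum h1).congr_deriv ?_
  rw [Finset.sum_range_succ']
  simp only [Nat.cast_zero, zero_mul, zero_div, add_zero]
  refine Finset.sum_congr rfl fun j _ => ?_
  rw [Nat.add_sub_cancel, Nat.factorial_succ, show k + (j + 1) = k + 1 + j by omega]
  have h2 : ((j + 1 : ℕ) : ℝ) ≠ 0 := by positivity
  have h3 : (j.factorial : ℝ) ≠ 0 := by positivity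
  push_cast at h2 ⊢
  field_simp

lemma Hk_zero {G : ℕ → ℝ → ℝ} {n k : ℕ} (hk : k ≤ n) : Hk G n k 0 = 0 := by
  unfold Hk
  obtain ⟨m, hm⟩ : ∃ m, n + 1 - k = m + 1 := ⟨n - k, by omega⟩
  rw [hm, Finset.sum_range_succ']
  simp

/-- Taylor's formula -/
lemma tay_bound {G : ℕ → ℝ → ℝ} {n : ℕ} {C : ℝ}
    (hG : ∀ k ≤ n, ∀ t, HasDerivAt (G k) (G (k + 1) t) t)
    (hC : ∀ t ∈ Icc (0 : ℝ) 1, |G n t - G n 0| ≤ C * t) :
    |G 0 1 - ∑ j ∈ Finset.range (n + 1), 1 / (j.factorial : ℝ) * G j 0| ≤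
      C / (n + 1).factorial := by
  have key : ∀ m ≤ n, ∀ t ∈ Icc (0 : ℝ) 1,
      |Hk G n (n - m) t| ≤ C * (t ^ (m + 1) / (m + 1).factorial) := by
    intro m
    induction m with
    | zero =>
      intro _ t ht
      have e : Hk G n n t = G n t - G n 0 := by
        unfold Hk
        rw [Nat.add_sub_cancel_left]
        simp
      rw [Nat.sub_zero, e]
      simpa using hC t ht
    | succ m ih =>
      intro hm
      have h1 := ih (by omega)
      refine int_bound (f' := Hk G n (n - m)) (fun t => ?_) (Hk_zero (by omega)) h1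
      have h2 := Hk_deriv hG (k := n - (m + 1)) (by omega) t
      rwa [show n - (m + 1) + 1 = n - m by omega] at h2
  have h1 := key n le_rfl 1 (by simp)
  rw [Nat.sub_self] at h1
  unfold Hk at h1
  simp only [Nat.sub_zero, one_pow, zero_add, mul_one_div] at h1
  exact h1

/-- the estimate for a pair of points -/
theorem pair_bound {n : ℕ} {φ : E → ℝ} {M r : ℝ} {c a b : E} (hn : 1 ≤ n)
    (hφ : ContDiff ℝ (n + 1 : ℕ) φ) {B : Set E} (hB : Convex ℝ B)
    (hM : ∀ z ∈ B, ‖iteratedFDeriv ℝ (n + 1) φ z‖ ≤ M) (hc : c ∈ B) (ha : c + a ∈ B)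
    (hb : c + b ∈ B) (har : ‖a‖ ≤ r) (hbr : ‖b‖ ≤ r) :
    |(φ (c + a) - φ (c + b)) - ∑ j ∈ Finset.range (n + 1), 1 / (j.factorial : ℝ) *
      (iteratedFDeriv ℝ j φ c (fun _ => a) - iteratedFDeriv ℝ j φ c (fun _ => b))| ≤
      M / n.factorial * r ^ n * ‖a - b‖ := by
  have hM0 : 0 ≤ M := (norm_nonneg _).trans (hM c hc)
  have hr0 : 0 ≤ r := (norm_nonneg _).trans har
  have hin : ∀ a : E, c + a ∈ B → ∀ t ∈ Icc (0 : ℝ) 1, c + t • a ∈ B := by
    intro a ha t ht
    have h1 := hB.add_smul_sub_mem hc ha ht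
    rwa [add_sub_cancel_left] at h1
  have hlip : ∀ z ∈ B, ∀ w ∈ B, ‖iteratedFDeriv ℝ n φ z - iteratedFDeriv ℝ n φ w‖ ≤
      M * ‖z - w‖ := by
    intro z hz w hw
    have hd : Differentiable ℝ (iteratedFDeriv ℝ n φ) :=
      hφ.differentiable_iteratedFDeriv (by exact_mod_cast Nat.lt_succ_self n)
    refine hB.norm_image_sub_le_of_norm_fderiv_le (𝕜 := ℝ) (fun x _ => hd x) (fun x hx => ?_) hw hz
    rw [norm_fderiv_iteratedFDeriv]
    exact hM x hx
  obtain ⟨G, hGdef⟩ : ∃ G : ℕ → ℝ → ℝ, G = fun k t => iteratedFDeriv ℝ k φ (c + t • a) (fun _ => a) -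
    iteratedFDeriv ℝ k φ (c + t • b) (fun _ => b) := ⟨_, rfl⟩
  have hG : ∀ k ≤ n, ∀ t, HasDerivAt (G k) (G (k + 1) t) t := by
    intro k hk t
    rw [hGdef]
    exact (line_deriv hφ c a hk t).sub (line_deriv hφ c b hk t)
  have hC : ∀ t ∈ Icc (0 : ℝ) 1, |G n t - G n 0| ≤ ((n + 1) * M * r ^ n * ‖a - b‖) * t := by
    intro t ht
    have hta := hin a ha t ht
    have htb := hin b hb t ht
    have h1 := hlip _ hta _ htb
    have h2 := hlip _ htb _ hc
    obtain ⟨A, hA⟩ : ∃ A, A = iteratedFDeriv ℝ n φ (c + t • a) - iteratedFDeriv ℝ n φ (c + t • b) :=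
      ⟨_, rfl⟩
    obtain ⟨D, hD⟩ : ∃ D, D = iteratedFDeriv ℝ n φ (c + t • b) - iteratedFDeriv ℝ n φ c :=
      ⟨_, rfl⟩
    rw [← hA] at h1
    rw [← hD] at h2
    have e1 : c + t • a - (c + t • b) = t • (a - b) := by
      rw [smul_sub]
      abel
    have e2 : c + t • b - c = t • b := by abel
    rw [e1, norm_smul, Real.norm_eq_abs, abs_of_nonneg ht.1] at h1
    rw [e2, norm_smul, Real.norm_eq_abs, abs_of_nonneg ht.1] at h2
    have e3 : G n t - G n 0 = A (fun _ => a) + (D (fun _ => a) - D (fun _ => b)) := by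
      rw [hGdef, hA, hD]
      simp only [zero_smul, add_zero, _root_.sub_apply]
      ring
    have h3 : |A (fun _ => a)| ≤ M * (t * ‖a - b‖) * r ^ n := by
      have h4 := A.le_opNorm (fun _ => a)
      rw [Finset.prod_const, Finset.card_univ, Fintype.card_fin] at h4
      refine h4.trans ?_
      have ht0 := ht.1
      have h5 : 0 ≤ M * (t * ‖a - b‖) := by positivity
      exact mul_le_mul h1 (pow_le_pow_left₀ (norm_nonneg a) har n) (by positivity) h5
    have h5 : |D (fun _ => a) - D (fun _ => b)| ≤ M * (t * r) * n * r ^ (n - 1) * ‖a - b‖ := by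
      have h6 := D.norm_image_sub_le (fun _ => a) (fun _ => b)
      rw [Fintype.card_fin] at h6
      have : Nonempty (Fin n) := ⟨⟨0, by omega⟩⟩
      have e4 : ‖(fun _ : Fin n => a)‖ = ‖a‖ := pi_norm_const a
      have e5 : ‖(fun _ : Fin n => b)‖ = ‖b‖ := pi_norm_const b
      have e6 : ‖(fun _ : Fin n => a) - (fun _ : Fin n => b)‖ = ‖a - b‖ := pi_norm_const (a - b)
      rw [e4, e5, e6] at h6
      refine h6.trans ?_
      have h7 : max ‖a‖ ‖b‖ ≤ r := max_le har hbr
      have ht0 := ht.1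
      have h8 : ‖D‖ ≤ M * (t * r) := h2.trans (by gcongr)
      have h9 : 0 ≤ max ‖a‖ ‖b‖ := le_trans (norm_nonneg a) (le_max_left _ _)
      have h10 : max ‖a‖ ‖b‖ ^ (n - 1) ≤ r ^ (n - 1) := pow_le_pow_left₀ h9 h7 _
      have h11 : ‖D‖ * n ≤ M * (t * r) * n := mul_le_mul_of_nonneg_right h8 (by positivity)
      exact mul_le_mul_of_nonneg_right (mul_le_mul h11 h10 (by positivity) (by positivity))
        (norm_nonneg _)
    rw [e3]
    refine (abs_add_le _ _).trans ((add_le_add h3 h5).trans (le_of_eq ?_))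
    obtain ⟨m, rfl⟩ : ∃ m, n = m + 1 := ⟨n - 1, by omega⟩
    rw [Nat.add_sub_cancel]
    push_cast
    ring
  have h1 := tay_bound hG hC
  have e1 : G 0 1 = φ (c + a) - φ (c + b) := by
    rw [hGdef]
    simp
  have e2 : ∀ j, G j 0 = iteratedFDeriv ℝ j φ c (fun _ => a) -
      iteratedFDeriv ℝ j φ c (fun _ => b) := by
    intro j
    rw [hGdef]
    simp only [zero_smul, add_zero]
  rw [e1] at h1
  simp only [e2] at h1
  refine h1.trans (le_of_eq ?_)
  rw [Nat.factorial_succ]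
  have h2 : (n.factorial : ℝ) ≠ 0 := by positivity
  have h3 : (n : ℝ) + 1 ≠ 0 := by positivity
  push_cast
  field_simp

end line

/-! ### The polynomial -/

section poly

open MvPolynomial

/-- three dimensional space -/
abbrev E3' := EuclideanSpace ℝ (Fin 3)

/-- a homogeneous term -/
lemma term {j : ℕ} (A : ContinuousMultilinearMap ℝ (fun _ : Fin j => E3') ℝ) (c : E3') :
    ∃ Q : MvPolynomial (Fin 3) ℝ, Q.totalDegree ≤ j ∧
      ∀ x : E3', eval (fun i => x i) Q = A (fun _ => x - c) := by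
  refine ⟨∑ s : Fin j → Fin 3, C (A (fun k => EuclideanSpace.single (s k) (1 : ℝ))) *
    ∏ k, (X (s k) - C (c (s k))), ?_, ?_⟩
  · refine (totalDegree_finsetSum _ _).trans (Finset.sup_le ?_)
    intro s _
    refine (totalDegree_mul _ _).trans ?_
    rw [totalDegree_C, zero_add]
    refine (totalDegree_finsetProd _ _).trans ?_
    calc ∑ k : Fin j, (X (s k) - C (c (s k)) : MvPolynomial (Fin 3) ℝ).totalDegree
        ≤ ∑ k : Fin j, 1 := by
          refine Finset.sum_le_sum fun k _ => ?_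
          refine (totalDegree_sub _ _).trans (max_le ?_ ?_)
          · rw [totalDegree_X]
          · rw [totalDegree_C]
            exact Nat.zero_le 1
      _ = j := by simp
  · intro x
    have h1 : x - c = ∑ i : Fin 3, (x i - c i) • EuclideanSpace.single i (1 : ℝ) := by
      ext k
      simp [Pi.single_apply]
    have h2 : A (fun _ => x - c) = A (fun _ => ∑ i : Fin 3,
        (x i - c i) • EuclideanSpace.single i (1 : ℝ)) := by rw [← h1]
    rw [h2, A.map_sum, map_sum]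
    refine Finset.sum_congr rfl fun s _ => ?_
    rw [A.map_smul_univ, map_mul, map_prod, eval_C, smul_eq_mul, mul_comm]
    congr 1
    refine Finset.prod_congr rfl fun k _ => ?_
    simp

/-- the Taylor polynomial -/
lemma taylor_poly (φ : E3' → ℝ) (c : E3') (n : ℕ) :
    ∃ P : MvPolynomial (Fin 3) ℝ, P.totalDegree ≤ n ∧
      ∀ x : E3', eval (fun i => x i) P = ∑ j ∈ Finset.range (n + 1), 1 / (j.factorial : ℝ) *
        iteratedFDeriv ℝ j φ c (fun _ => x - c) := by
  choose Q hQd hQ using fun j : ℕ => term (iteratedFDeriv ℝ j φ c) c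
  refine ⟨∑ j ∈ Finset.range (n + 1), C (1 / (j.factorial : ℝ)) * Q j, ?_, ?_⟩
  · refine (totalDegree_finsetSum _ _).trans (Finset.sup_le ?_)
    intro j hj
    rw [Finset.mem_range] at hj
    refine (totalDegree_mul _ _).trans ?_
    rw [totalDegree_C, zero_add]
    exact (hQd j).trans (by omega)
  · intro x
    rw [map_sum]
    refine Finset.sum_congr rfl fun j _ => ?_
    rw [map_mul, eval_C, hQ]

end poly

open Pool.Agent.Helper793.Nir (E3 S2) in
theorem ty : Pool.Agent.Y250.SS.S_TY := by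
  intro n φ M hn hφ hM c
  obtain ⟨P, hPd, hP⟩ := taylor_poly φ (c : E3) n
  refine ⟨P, hPd, fun r x y hx hy => ?_⟩
  have hS : ∀ z : S2, ((z : E3)) ∈ Metric.closedBall (0 : E3) 1 := by
    intro z
    have h1 : ‖(z : E3)‖ = 1 := norm_eq_of_mem_sphere z
    rw [mem_closedBall_zero_iff, h1]
  have hM0 : 0 ≤ M := (norm_nonneg _).trans (hM 0 (by simp))
  have hr0 : 0 ≤ r := (norm_nonneg _).trans hx
  have h1 := pair_bound (a := (x : E3) - c) (b := (y : E3) - c) (c := (c : E3)) (r := r) hn hφ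
    (convex_closedBall (0 : E3) 1)
    (fun z hz => hM z (by simpa using hz)) (hS c)
    (by rw [add_sub_cancel]; exact hS x) (by rw [add_sub_cancel]; exact hS y) hx hy
  rw [add_sub_cancel, add_sub_cancel, sub_sub_sub_cancel_right] at h1
  have e1 : (φ x - Pool.Agent.Y250.SS.evE P x) - (φ y - Pool.Agent.Y250.SS.evE P y) =
      (φ x - φ y) - ∑ j ∈ Finset.range (n + 1), 1 / (j.factorial : ℝ) *
      (iteratedFDeriv ℝ j φ c (fun _ => (x : E3) - c) -
        iteratedFDeriv ℝ j φ c (fun _ => (y : E3) - c)) := by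
    unfold Pool.Agent.Y250.SS.evE
    rw [hP, hP]
    simp only [mul_sub, Finset.sum_sub_distrib]
    ring
  show |(φ x - Pool.Agent.Y250.SS.evE P x) - (φ y - Pool.Agent.Y250.SS.evE P y)| ≤ _
  rw [e1]
  refine h1.trans ?_
  have h2 : ((n - 1).factorial : ℝ) ≤ n.factorial := by
    exact_mod_cast Nat.factorial_le (Nat.sub_le n 1)
  have h3 : (0 : ℝ) < (n - 1).factorial := by positivity
  gcongr

end Pool.Agent.Y941.SS
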